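import Mathlib

namespace Pool.Agent.Results.MP_7e9539_an.Hereditary
open CStarModule

/-- Closed linear span of the inner products of elements of `F`. -/
noncomputable def BF (A : Type*) {E : Type*} [NonUnitalCStarAlgebra A] [Inner A E] (F : Set E) :
    Set A :=
  closure (Submodule.span ℂ {a : A | ∃ x ∈ F, ∃ y ∈ F, a = inner A x y})

/-- Norm closed linear span of the rank one operators `x y^*` with `x, y ∈ F`. -/
noncomputable def KF (A : Type*) {E : Type*} [NormedAddCommGroup E] [NormedSpace ℂ E] [SMul A E]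
    [Inner A E] (F : Set E) : Set (E →L[ℂ] E) :=
  closure (Submodule.span ℂ {T : E →L[ℂ] E | ∃ x ∈ F, ∃ y ∈ F, ∀ z, T z = inner A y z • x})

lemma tri {R : Type*} [NonUnitalNormedRing R] [NormedSpace ℂ R] [IsScalarTower ℂ R R]
    [SMulCommClass ℂ R R] {S T : Set R}
    (h : ∀ a ∈ S, ∀ b ∈ T, ∀ c ∈ S, a * b * c ∈ S) :
    ∀ a ∈ closure (Submodule.span ℂ S : Set R), ∀ b ∈ closure (Submodule.span ℂ T : Set R),
      ∀ c ∈ closure (Submodule.span ℂ S : Set R),
        a * b * c ∈ closure (Submodule.span ℂ S : Set R) := by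
  have h1 : ∀ a ∈ Submodule.span ℂ S, ∀ b ∈ Submodule.span ℂ T, ∀ c ∈ Submodule.span ℂ S,
      a * b * c ∈ Submodule.span ℂ S := by
    intro a ha b hb c hc
    induction ha using Submodule.span_induction with
    | zero => simp
    | add x y _ _ hx hy => simpa [add_mul] using add_mem hx hy
    | smul r x _ hx => simpa [smul_mul_assoc] using Submodule.smul_mem _ r hx
    | mem a ha =>
      induction hb using Submodule.span_induction with
      | zero => simp
      | add x y _ _ hx hy => simpa [add_mul, mul_add] using add_mem hx hy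
      | smul r x _ hx => simpa [smul_mul_assoc, mul_smul_comm] using Submodule.smul_mem _ r hx
      | mem b hb =>
        induction hc using Submodule.span_induction with
        | zero => simp
        | add x y _ _ hx hy => simpa [mul_add] using add_mem hx hy
        | smul r x _ hx => simpa [mul_smul_comm] using Submodule.smul_mem _ r hx
        | mem c hc => exact Submodule.subset_span (h a ha b hb c hc)
  intro a ha b hb c hc
  have hm : (a, b, c) ∈ closure ((Submodule.span ℂ S : Set R) ×ˢ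
      (Submodule.span ℂ T : Set R) ×ˢ (Submodule.span ℂ S : Set R)) := by
    rw [closure_prod_eq, closure_prod_eq]; exact ⟨ha, hb, hc⟩
  exact map_mem_closure (f := fun p : R × R × R => p.1 * p.2.1 * p.2.2) (by fun_prop) hm
    fun p hp => h1 _ hp.1 _ hp.2.1 _ hp.2.2

theorem result (A E : Type*) [NonUnitalCStarAlgebra A] [PartialOrder A] [StarOrderedRing A]
    [SMul A E] [NormedAddCommGroup E] [NormedSpace ℂ E] [CStarModule A E]
    (F : Set E) (hF : ∀ x ∈ F, ∀ y : E, ∀ z ∈ F, inner A y z • x ∈ F) :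
    (∀ a ∈ BF A F, ∀ b ∈ BF A (Set.univ : Set E), ∀ c ∈ BF A F, a * b * c ∈ BF A F) ∧
    (∀ S ∈ KF A F, ∀ R ∈ KF A (Set.univ : Set E), ∀ T ∈ KF A F, S * R * T ∈ KF A F) := by
  have ext : ∀ u v : E, (∀ w, inner A w u = inner A w v) → u = v := fun u v h => by
    rw [← sub_eq_zero, ← CStarModule.inner_self (A := A), CStarModule.inner_sub_right, h, sub_self]
  constructor
  · refine tri ?_
    rintro _ ⟨f1, h1, f2, h2, rfl⟩ _ ⟨e1, -, e2, -, rfl⟩ _ ⟨f3, h3, f4, h4, rfl⟩
    refine ⟨f3, h3, _, hF f4 h4 (inner A e2 e1 • f1) f2 h2, ?_⟩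
    simp
  · refine tri ?_
    rintro S ⟨f1, h1, f2, h2, hS⟩ R ⟨e1, -, e2, -, hR⟩ T ⟨f3, h3, f4, h4, hT⟩
    refine ⟨_, hF f1 h1 (inner A e1 f2 • e2) f3 h3, f4, h4, fun z => ext _ _ fun w => ?_⟩
    simp [hS, hR, hT, mul_assoc]

end Pool.Agent.Results.MP_7e9539_an.Hereditary
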